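import Mathlib
import Pool.Agent.Helper940.SelfSim
import Pool.Agent.Helper940.SelfSimBasic
import Pool.Agent.Helper940.MixedTree
import Pool.Agent.Helper940.MixedTree2

/-!
Growth functions of boundary Schreier graphs of contracting groups, up to multiplicative constants.
-/

set_option autoImplicit false

open Filter Topology Pool.Agent.Helper940.SelfSim Pool.Agent.Helper940.MixedTree

namespace Pool.Agent.Y381.Deg

/-- greedy approximation of a sequence by sums of the numbers `1` and `l` -/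
noncomputable def gr (l : ℝ) (T : ℕ → ℝ) : ℕ → ℝ
  | 0 => 0
  | n + 1 => gr l T n + (if gr l T n ≤ T n then l else 1)

theorem gr_near {l L : ℝ} {T : ℕ → ℝ} (hL : 1 ≤ L) (hl : L ≤ l)
    (hT : ∀ n, 1 ≤ T (n + 1) - T n ∧ T (n + 1) - T n ≤ L) (n : ℕ) :
    |gr l T n - T n| ≤ |T 0| + L + l := by
  have h0 := neg_abs_le (T 0)
  have h1 := le_abs_self (T 0)
  induction n with
  | zero =>
    rw [gr, zero_sub, abs_neg]
    linarith
  | succ n ih =>
    obtain ⟨h2, h3⟩ := hT n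
    rw [abs_le] at ih ⊢
    obtain ⟨h4, h5⟩ := ih
    rw [gr]
    split_ifs with h
    · constructor <;> linarith [abs_nonneg (T 0)]
    · push Not at h
      constructor <;> linarith [abs_nonneg (T 0)]

open Classical in
/-- the boundary point -/
noncomputable def pt (k : ℕ) (l : ℝ) (T : ℕ → ℝ) (n : ℕ) : Al k := bt k (decide (gr l T n ≤ T n))

theorem log_NN (k : ℕ) (T : ℕ → ℝ) (n : ℕ) :
    Real.log (NN (pt k (Real.log ((k + 2 : ℕ) : ℝ) / Real.log 2) T) n) =
      gr (Real.log ((k + 2 : ℕ) : ℝ) / Real.log 2) T n * Real.log 2 := by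
  have hl2 : 0 < Real.log 2 := Real.log_pos (by norm_num)
  have hprod : ∀ n, NN (pt k (Real.log ((k + 2 : ℕ) : ℝ) / Real.log 2) T) n =
      ∏ i ∈ Finset.range n, sz k (cl (pt k (Real.log ((k + 2 : ℕ) : ℝ) / Real.log 2) T i)) := by
    intro n
    unfold NN
    rw [Finset.prod_range]
  induction n with
  | zero =>
    rw [hprod, gr]
    simp
  | succ n ih =>
    have hpos : (0 : ℝ) < NN (pt k (Real.log ((k + 2 : ℕ) : ℝ) / Real.log 2) T) n := by
      exact_mod_cast NN_pos _ n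
    rw [hprod, Finset.prod_range_succ, ← hprod, Nat.cast_mul]
    have hsz : (0 : ℝ) < (sz k (cl (pt k (Real.log ((k + 2 : ℕ) : ℝ) / Real.log 2) T n)) : ℝ) := by
      have : 0 < sz k (cl (pt k (Real.log ((k + 2 : ℕ) : ℝ) / Real.log 2) T n)) := by
        unfold sz
        split_ifs <;> omega
      exact_mod_cast this
    rw [Real.log_mul hpos.ne' hsz.ne', ih, gr, add_mul]
    congr 1
    rw [pt, cl_bt, sz]
    by_cases h : gr (Real.log ((k + 2 : ℕ) : ℝ) / Real.log 2) T n ≤ T n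
    · rw [if_pos h, decide_eq_true h, if_pos rfl, div_mul_cancel₀ _ hl2.ne']
    · rw [if_neg h, decide_eq_false h]
      simp

/-- growth functions with prescribed values at the powers of two, up to constants -/
theorem exists_growth (T : ℕ → ℝ) (L : ℝ) (hL : 1 ≤ L)
    (hT : ∀ n, 1 ≤ T (n + 1) - T n ∧ T (n + 1) - T n ≤ L) :
    ∃ (k : ℕ) (ξ : ℕ → Al k) (C : ℝ), ∀ n : ℕ,
      |Real.log (growth (S k) ξ (2 ^ n)) - T n * Real.log 2| ≤ C := by
  have hl2 : 0 < Real.log 2 := Real.log_pos (by norm_num)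
  obtain ⟨k0, hk0⟩ := exists_nat_ge ((2 : ℝ) ^ L)
  obtain ⟨l, hl⟩ : ∃ l : ℝ, l = Real.log ((k0 + 2 : ℕ) : ℝ) / Real.log 2 := ⟨_, rfl⟩
  have hLl : L ≤ l := by
    rw [hl, le_div_iff₀ hl2]
    have h1 : (2 : ℝ) ^ L ≤ ((k0 + 2 : ℕ) : ℝ) := by
      push_cast
      linarith
    have := Real.log_le_log (by positivity) h1
    rwa [Real.log_rpow (by norm_num)] at this
  refine ⟨k0, pt k0 l T, Real.log (CC k0) + (|T 0| + L + l) * Real.log 2, fun n => ?_⟩
  have h1 : Real.log (NN (pt k0 l T) n) = gr l T n * Real.log 2 := by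
    rw [hl]
    exact log_NN k0 T n
  have h2 := gr_near hL hLl hT n
  have hNpos : (0 : ℝ) < NN (pt k0 l T) n := by exact_mod_cast NN_pos _ n
  have hCC : (1 : ℝ) ≤ CC k0 := by exact_mod_cast CC_pos
  have h3 : Real.log (NN (pt k0 l T) n) ≤ Real.log (growth (S k0) (pt k0 l T) (2 ^ n)) :=
    Real.log_le_log hNpos (by exact_mod_cast lower _ n)
  have hgpos : (0 : ℝ) < growth (S k0) (pt k0 l T) (2 ^ n) := by
    have h4 : (NN (pt k0 l T) n : ℝ) ≤ growth (S k0) (pt k0 l T) (2 ^ n) := by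
      exact_mod_cast lower _ n
    linarith
  have h4 : Real.log (growth (S k0) (pt k0 l T) (2 ^ n)) ≤
      Real.log (CC k0) + Real.log (NN (pt k0 l T) n) := by
    rw [← Real.log_mul (by linarith) hNpos.ne']
    exact Real.log_le_log hgpos (by exact_mod_cast upper _ n)
  have h5 : 0 ≤ Real.log (CC k0) := Real.log_nonneg hCC
  rw [h1] at h3 h4
  rw [abs_le] at h2 ⊢
  obtain ⟨h6, h7⟩ := h2
  constructor
  · nlinarith
  · nlinarith

/-- growth functions, up to multiplicative constants -/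
theorem exists_growth_fun (f : ℕ → ℝ) (K : ℝ) (hf : ∀ m, 1 ≤ m → 0 < f m)
    (hmono : ∀ m n, 1 ≤ m → m ≤ n → f m ≤ f n)
    (h2 : ∀ m, 1 ≤ m → 2 * f m ≤ f (2 * m) ∧ f (2 * m) ≤ K * f m) :
    ∃ (k : ℕ) (ξ : ℕ → Al k) (c C : ℝ), 0 < c ∧ 0 < C ∧ ∀ m : ℕ, 1 ≤ m →
      c * f m ≤ growth (S k) ξ m ∧ (growth (S k) ξ m : ℝ) ≤ C * f m := by
  have hl2 : 0 < Real.log 2 := Real.log_pos (by norm_num)
  have hK : 2 ≤ K := by
    obtain ⟨h3, h4⟩ := h2 1 le_rfl
    have := hf 1 le_rfl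
    nlinarith
  have hfp : ∀ n : ℕ, 0 < f (2 ^ n) := fun n => hf _ Nat.one_le_two_pow
  obtain ⟨T, hT⟩ : ∃ T : ℕ → ℝ, T = fun n => Real.log (f (2 ^ n)) / Real.log 2 := ⟨_, rfl⟩
  have hTn : ∀ n, T n * Real.log 2 = Real.log (f (2 ^ n)) := by
    intro n
    rw [hT]
    exact div_mul_cancel₀ _ hl2.ne'
  have hinc : ∀ n, 1 ≤ T (n + 1) - T n ∧ T (n + 1) - T n ≤ Real.log K / Real.log 2 := by
    intro n
    obtain ⟨h3, h4⟩ := h2 (2 ^ n) Nat.one_le_two_pow
    rw [← pow_succ'] at h3 h4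
    have h5 := Real.log_le_log (by have := hfp n; positivity) h3
    have h6 := Real.log_le_log (hfp (n + 1)) h4
    rw [Real.log_mul (by norm_num) (hfp n).ne'] at h5
    rw [Real.log_mul (by linarith) (hfp n).ne'] at h6
    have h7 : (T (n + 1) - T n) * Real.log 2 = Real.log (f (2 ^ (n + 1))) - Real.log (f (2 ^ n)) := by
      rw [sub_mul, hTn, hTn]
    constructor
    · have : 1 * Real.log 2 ≤ (T (n + 1) - T n) * Real.log 2 := by
        rw [h7]
        linarith
      exact le_of_mul_le_mul_right this hl2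
    · rw [le_div_iff₀ hl2, h7]
      linarith
  have hL : 1 ≤ Real.log K / Real.log 2 := by
    rw [le_div_iff₀ hl2, one_mul]
    exact Real.log_le_log (by norm_num) hK
  obtain ⟨k, ξ, C, hC⟩ := exists_growth T _ hL hinc
  have hgp : ∀ n : ℕ, (0 : ℝ) < growth (S k) ξ n := fun n => by
    exact_mod_cast growth_pos S_finite ξ n
  have hgrow : ∀ n : ℕ, Real.exp (-C) * f (2 ^ n) ≤ growth (S k) ξ (2 ^ n) ∧
      (growth (S k) ξ (2 ^ n) : ℝ) ≤ Real.exp C * f (2 ^ n) := by
    intro n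
    have h3 := hC n
    rw [hTn, abs_le] at h3
    obtain ⟨h4, h5⟩ := h3
    constructor
    · calc Real.exp (-C) * f (2 ^ n) = Real.exp (-C + Real.log (f (2 ^ n))) := by
            rw [Real.exp_add, Real.exp_log (hfp n)]
        _ ≤ Real.exp (Real.log (growth (S k) ξ (2 ^ n))) := Real.exp_le_exp.2 (by linarith)
        _ = growth (S k) ξ (2 ^ n) := Real.exp_log (hgp _)
    · calc (growth (S k) ξ (2 ^ n) : ℝ) = Real.exp (Real.log (growth (S k) ξ (2 ^ n))) :=
            (Real.exp_log (hgp _)).symm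
        _ ≤ Real.exp (C + Real.log (f (2 ^ n))) := Real.exp_le_exp.2 (by linarith)
        _ = Real.exp C * f (2 ^ n) := by rw [Real.exp_add, Real.exp_log (hfp n)]
  refine ⟨k, ξ, Real.exp (-C) / K, Real.exp C * K, by positivity, by positivity, fun m hm => ?_⟩
  obtain ⟨n, hn⟩ : ∃ n, n = Nat.log 2 m := ⟨_, rfl⟩
  have hlow : 2 ^ n ≤ m := by rw [hn]; exact Nat.pow_log_le_self 2 (by omega)
  have hup : m ≤ 2 * 2 ^ n := by
    rw [hn, ← pow_succ']
    exact (Nat.lt_pow_succ_log_self (by norm_num) m).le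
  have h1n : 1 ≤ 2 ^ n := Nat.one_le_two_pow
  have h3 : f m ≤ K * f (2 ^ n) := (hmono m _ hm hup).trans (h2 _ h1n).2
  have h4 : f (2 ^ n) ≤ f m := hmono _ _ h1n hlow
  have h5 : f (2 ^ (n + 1)) ≤ K * f (2 ^ n) := by
    rw [pow_succ']
    exact (h2 _ h1n).2
  have hKp : 0 < K := by linarith
  constructor
  · calc Real.exp (-C) / K * f m ≤ Real.exp (-C) / K * (K * f (2 ^ n)) :=
          mul_le_mul_of_nonneg_left h3 (by positivity)
      _ = Real.exp (-C) * f (2 ^ n) := by field_simp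
      _ ≤ growth (S k) ξ (2 ^ n) := (hgrow n).1
      _ ≤ growth (S k) ξ m := by exact_mod_cast growth_mono S_finite ξ hlow
  · calc (growth (S k) ξ m : ℝ) ≤ growth (S k) ξ (2 ^ (n + 1)) := by
          exact_mod_cast growth_mono S_finite ξ (by rw [pow_succ']; exact hup)
      _ ≤ Real.exp C * f (2 ^ (n + 1)) := (hgrow (n + 1)).2
      _ ≤ Real.exp C * (K * f (2 ^ n)) := mul_le_mul_of_nonneg_left h5 (Real.exp_pos _).le
      _ ≤ Real.exp C * (K * f m) := by
          apply mul_le_mul_of_nonneg_left _ (Real.exp_pos _).le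
          exact mul_le_mul_of_nonneg_left h4 hKp.le
      _ = Real.exp C * K * f m := by ring

end Pool.Agent.Y381.Deg
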