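import Mathlib
import Pool.Agent.Y381.Deg.Core

/-!
Lower and upper degrees of growth of boundary Schreier graphs of contracting groups.
-/

set_option autoImplicit false

open Filter Topology Pool.Agent.Helper940.SelfSim Pool.Agent.Helper940.MixedTree

namespace Pool.Agent.Y381.Deg

/-- The lower and the upper degree of growth. -/
def HasDegrees (γ : ℕ → ℕ) (α β : ℝ) : Prop :=
  liminf (fun n : ℕ => ((Real.log (γ n) / Real.log n : ℝ) : EReal)) atTop = (α : EReal) ∧
    limsup (fun n : ℕ => ((Real.log (γ n) / Real.log n : ℝ) : EReal)) atTop = (β : EReal)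

theorem sub_limsup (u : ℕ → EReal) {θ : ℕ → ℕ} (hθ : Tendsto θ atTop atTop) :
    limsup (fun j => u (θ j)) atTop ≤ limsup u atTop := by
  have h1 : limsup (fun j => u (θ j)) atTop = limsup u (map θ atTop) := by
    rw [limsup, limsup, map_map]
    rfl
  rw [h1]
  exact limsup_le_limsup_of_le hθ

theorem sub_liminf (u : ℕ → EReal) {θ : ℕ → ℕ} (hθ : Tendsto θ atTop atTop) :
    liminf u atTop ≤ liminf (fun j => u (θ j)) atTop := by
  have h1 : liminf (fun j => u (θ j)) atTop = liminf u (map θ atTop) := by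
    rw [liminf, liminf, map_map]
    rfl
  rw [h1]
  exact liminf_le_liminf_of_le hθ

theorem tendsto_log2 : Tendsto (fun m : ℕ => Nat.log 2 m) atTop atTop := by
  rw [tendsto_atTop]
  intro b
  filter_upwards [eventually_ge_atTop (2^b)] with m hm
  exact Nat.le_log_of_pow_le (by norm_num) hm

theorem tendsto_ratio (a b c : ℝ) :
    Tendsto (fun n : ℕ => (a + b * n) / (n * c)) atTop (𝓝 (b / c)) := by
  have h1 : Tendsto (fun n : ℕ => a / (n : ℝ)) atTop (𝓝 0) :=
    tendsto_const_nhds.div_atTop tendsto_natCast_atTop_atTop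
  have h2 := (h1.add_const b).div_const c
  rw [zero_add] at h2
  refine h2.congr' ?_
  filter_upwards [eventually_gt_atTop 0] with n hn
  have hn' : (n : ℝ) ≠ 0 := by exact_mod_cast hn.ne'
  by_cases hc : c = 0
  · rw [hc]; simp
  · field_simp

theorem hasDegrees_of (γ : ℕ → ℕ) (hpos : ∀ n, 1 ≤ γ n) (hmono : Monotone γ) (T : ℕ → ℝ) (C : ℝ)
    (hC : ∀ n : ℕ, |Real.log (γ (2 ^ n)) - T n * Real.log 2| ≤ C) {α β : ℝ} (hα : 0 ≤ α)
    (hβ : 0 ≤ β) (hT : ∀ n : ℕ, α * n ≤ T n ∧ T n ≤ β * n) {φ ψ : ℕ → ℕ}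
    (hφ : Tendsto φ atTop atTop) (hφT : Tendsto (fun j => T (φ j) / φ j) atTop (𝓝 α))
    (hψ : Tendsto ψ atTop atTop) (hψT : Tendsto (fun j => T (ψ j) / ψ j) atTop (𝓝 β)) :
    HasDegrees γ α β := by
  have hl2 : 0 < Real.log 2 := Real.log_pos (by norm_num)
  have hC0 : 0 ≤ C := (abs_nonneg _).trans (hC 0)
  have hγr : ∀ n, (1 : ℝ) ≤ γ n := fun n => by exact_mod_cast hpos n
  have hγl : ∀ n, 0 ≤ Real.log (γ n) := fun n => Real.log_nonneg (hγr n)
  obtain ⟨u, hu⟩ : ∃ u : ℕ → EReal,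
    u = fun n : ℕ => ((Real.log (γ n) / Real.log n : ℝ) : EReal) := ⟨_, rfl⟩
  have hcoe : ∀ {w : ℕ → ℝ} {x : ℝ}, Tendsto w atTop (𝓝 x) →
      Tendsto (fun n => ((w n : ℝ) : EReal)) atTop (𝓝 (x : EReal)) := fun h =>
    (continuous_coe_real_ereal.tendsto _).comp h
  -- upper bound
  have hup : limsup u atTop ≤ (β : EReal) := by
    have hv : Tendsto (fun n : ℕ => ((C + β * Real.log 2) + (β * Real.log 2) * n) /
        (n * Real.log 2)) atTop (𝓝 β) := by
      have := tendsto_ratio (C + β * Real.log 2) (β * Real.log 2) (Real.log 2)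
      rwa [mul_div_assoc, div_self hl2.ne', mul_one] at this
    have hv2 := hcoe (hv.comp tendsto_log2)
    rw [← hv2.limsup_eq]
    refine limsup_le_limsup ?_
    filter_upwards [eventually_ge_atTop 2] with m hm
    rw [hu]
    rw [EReal.coe_le_coe_iff]
    simp only [Function.comp]
    obtain ⟨n, hn⟩ : ∃ n, n = Nat.log 2 m := ⟨_, rfl⟩
    rw [← hn]
    have hn1 : 1 ≤ n := by rw [hn]; exact Nat.le_log_of_pow_le (by norm_num) (by simpa using hm)
    have hlow : 2 ^ n ≤ m := by rw [hn]; exact Nat.pow_log_le_self 2 (by omega)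
    have hup : m < 2 ^ (n+1) := by rw [hn]; exact Nat.lt_pow_succ_log_self (by norm_num) m
    have hnr : (1 : ℝ) ≤ n := by exact_mod_cast hn1
    have hlogm2 : (n : ℝ) * Real.log 2 ≤ Real.log m := by
      have : (2:ℝ)^n ≤ m := by exact_mod_cast hlow
      calc (n : ℝ) * Real.log 2 = Real.log ((2:ℝ)^n) := by rw [Real.log_pow]
        _ ≤ Real.log m := Real.log_le_log (by positivity) this
    have h1 : Real.log (γ m) ≤ Real.log (γ (2 ^ (n + 1))) :=
      Real.log_le_log (by linarith [hγr m]) (by exact_mod_cast hmono hup.le)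
    have h2 := hC (n + 1)
    rw [abs_le] at h2
    have h3 := (hT (n + 1)).2
    push_cast at h3
    have h4 : T (n + 1) * Real.log 2 ≤ β * (n + 1) * Real.log 2 :=
      mul_le_mul_of_nonneg_right h3 hl2.le
    have h5 : Real.log (γ m) ≤ (C + β * Real.log 2) + (β * Real.log 2) * n := by
      linarith [h2.2]
    exact div_le_div₀ ((hγl m).trans h5) h5 (by positivity) hlogm2
  -- lower bound
  have hlo : (α : EReal) ≤ liminf u atTop := by
    have hv : Tendsto (fun n : ℕ => ((-C - α * Real.log 2) + (α * Real.log 2) * n) /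
        (n * Real.log 2)) atTop (𝓝 α) := by
      have := tendsto_ratio (-C - α * Real.log 2) (α * Real.log 2) (Real.log 2)
      rwa [mul_div_assoc, div_self hl2.ne', mul_one] at this
    have hlog1 : Tendsto (fun m : ℕ => Nat.log 2 m + 1) atTop atTop :=
      (tendsto_add_atTop_nat 1).comp tendsto_log2
    have hv2 := hcoe (hv.comp hlog1)
    rw [← hv2.liminf_eq]
    refine liminf_le_liminf ?_
    filter_upwards [eventually_ge_atTop 2] with m hm
    rw [hu]
    rw [EReal.coe_le_coe_iff]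
    simp only [Function.comp]
    obtain ⟨n, hn⟩ : ∃ n, n = Nat.log 2 m := ⟨_, rfl⟩
    rw [← hn]
    have hlow : 2 ^ n ≤ m := by rw [hn]; exact Nat.pow_log_le_self 2 (by omega)
    have hup : m < 2 ^ (n+1) := by rw [hn]; exact Nat.lt_pow_succ_log_self (by norm_num) m
    have hmr : (2 : ℝ) ≤ m := by exact_mod_cast hm
    have hlogm : 0 < Real.log m := Real.log_pos (by linarith)
    have hlogm2 : Real.log m ≤ ((n + 1 : ℕ) : ℝ) * Real.log 2 := by
      have : (m : ℝ) ≤ (2:ℝ)^(n+1) := by exact_mod_cast hup.le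
      calc Real.log m ≤ Real.log ((2:ℝ)^(n+1)) := Real.log_le_log (by linarith) this
        _ = ((n + 1 : ℕ) : ℝ) * Real.log 2 := by rw [Real.log_pow]
    have h1 : Real.log (γ (2 ^ n)) ≤ Real.log (γ m) :=
      Real.log_le_log (by linarith [hγr (2 ^ n)]) (by exact_mod_cast hmono hlow)
    have h2 := hC n
    rw [abs_le] at h2
    have h3 := (hT n).1
    have h4 : α * n * Real.log 2 ≤ T n * Real.log 2 := mul_le_mul_of_nonneg_right h3 hl2.le
    have h5 : (-C - α * Real.log 2) + (α * Real.log 2) * ((n + 1 : ℕ) : ℝ) ≤ Real.log (γ m) := by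
      push_cast
      linarith [h2.1]
    calc ((-C - α * Real.log 2) + (α * Real.log 2) * ((n + 1 : ℕ) : ℝ)) /
          (((n + 1 : ℕ) : ℝ) * Real.log 2)
        ≤ Real.log (γ m) / (((n + 1 : ℕ) : ℝ) * Real.log 2) :=
          div_le_div_of_nonneg_right h5 (by positivity)
      _ ≤ Real.log (γ m) / Real.log m := div_le_div_of_nonneg_left (hγl m) hlogm hlogm2
  -- values at powers of two
  have hpow : ∀ (θ : ℕ → ℕ) (x : ℝ), Tendsto θ atTop atTop →
      Tendsto (fun j => T (θ j) / θ j) atTop (𝓝 x) →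
      Tendsto (fun j => u (2 ^ θ j)) atTop (𝓝 (x : EReal)) := by
    intro θ x hθ hx
    rw [hu]
    apply hcoe
    have h1 : Tendsto (fun j => (Real.log (γ (2 ^ θ j)) - T (θ j) * Real.log 2) /
        ((θ j : ℝ) * Real.log 2)) atTop (𝓝 0) := by
      have h2 : Tendsto (fun j => C / ((θ j : ℝ) * Real.log 2)) atTop (𝓝 0) :=
        tendsto_const_nhds.div_atTop
          ((tendsto_natCast_atTop_atTop.comp hθ).atTop_mul_const hl2)
      apply squeeze_zero_norm _ h2
      intro j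
      rw [norm_div, Real.norm_eq_abs, Real.norm_of_nonneg (by positivity)]
      exact div_le_div_of_nonneg_right (hC (θ j)) (by positivity)
    have h3 := h1.add hx
    rw [zero_add] at h3
    refine h3.congr' ?_
    filter_upwards [hθ.eventually_gt_atTop 0] with j hj
    have hj' : ((θ j : ℕ) : ℝ) ≠ 0 := by exact_mod_cast hj.ne'
    push_cast
    rw [Real.log_pow]
    field_simp
    ring
  have hpt : ∀ (θ : ℕ → ℕ), Tendsto θ atTop atTop → Tendsto (fun j => 2 ^ θ j) atTop atTop :=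
    fun θ hθ => (tendsto_pow_atTop_atTop_of_one_lt (by norm_num : 1 < 2)).comp hθ
  constructor
  · rw [← hu]
    apply le_antisymm _ hlo
    have h1 := sub_liminf u (hpt φ hφ)
    rwa [(hpow φ α hφ hφT).liminf_eq] at h1
  · rw [← hu]
    apply le_antisymm hup
    have h1 := sub_limsup u (hpt ψ hψ)
    rwa [(hpow ψ β hψ hψT).limsup_eq] at h1

/-! ### The sequence -/

/-- the values on the blocks -/
noncomputable def bv (α β : ℝ) (j : ℕ) : ℝ := if Even j then β else α

noncomputable def bt' (α β : ℝ) (i : ℕ) : ℝ := bv α β (Nat.log 2 (Nat.log 2 i))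

noncomputable def TT (α β : ℝ) (n : ℕ) : ℝ := ∑ i ∈ Finset.range n, bt' α β i

theorem bv_mem {α β : ℝ} (h : α ≤ β) (j : ℕ) : α ≤ bv α β j ∧ bv α β j ≤ β := by
  unfold bv
  split_ifs
  · exact ⟨h, le_rfl⟩
  · exact ⟨le_rfl, h⟩

theorem TT_mem {α β : ℝ} (h : α ≤ β) (n : ℕ) : α * n ≤ TT α β n ∧ TT α β n ≤ β * n := by
  unfold TT
  constructor
  · calc α * n = ∑ _i ∈ Finset.range n, α := by
          rw [Finset.sum_const, Finset.card_range, nsmul_eq_mul, mul_comm]
      _ ≤ _ := Finset.sum_le_sum fun i _ => (bv_mem h _).1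
  · calc ∑ i ∈ Finset.range n, bt' α β i ≤ ∑ _i ∈ Finset.range n, β :=
          Finset.sum_le_sum fun i _ => (bv_mem h _).2
      _ = β * n := by rw [Finset.sum_const, Finset.card_range, nsmul_eq_mul, mul_comm]

theorem TT_block (α β : ℝ) (j : ℕ) : TT α β (2 ^ 2 ^ (j + 1)) =
    TT α β (2 ^ 2 ^ j) + (((2 ^ 2 ^ (j + 1) : ℕ) : ℝ) - ((2 ^ 2 ^ j : ℕ) : ℝ)) * bv α β j := by
  have hle : 2 ^ 2 ^ j ≤ 2 ^ 2 ^ (j + 1) :=
    Nat.pow_le_pow_right (by norm_num) (Nat.pow_le_pow_right (by norm_num) (Nat.le_succ j))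
  unfold TT
  rw [← Finset.sum_range_add_sum_Ico _ hle]
  congr 1
  have h1 : ∀ i ∈ Finset.Ico (2 ^ 2 ^ j) (2 ^ 2 ^ (j + 1)), bt' α β i = bv α β j := by
    intro i hi
    rw [Finset.mem_Ico] at hi
    unfold bt'
    congr 1
    have hi0 : i ≠ 0 := by
      have : 0 < 2 ^ 2 ^ j := by positivity
      omega
    have h2 : 2 ^ j ≤ Nat.log 2 i := Nat.le_log_of_pow_le (by norm_num) hi.1
    have h3 : Nat.log 2 i < 2 ^ (j + 1) := Nat.log_lt_of_lt_pow hi0 hi.2
    have h4 : Nat.log 2 i ≠ 0 := by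
      have : 0 < 2 ^ j := by positivity
      omega
    have h5 : j ≤ Nat.log 2 (Nat.log 2 i) := Nat.le_log_of_pow_le (by norm_num) h2
    have h6 : Nat.log 2 (Nat.log 2 i) < j + 1 := Nat.log_lt_of_lt_pow h4 h3
    omega
  rw [Finset.sum_congr rfl h1, Finset.sum_const, Nat.card_Ico, nsmul_eq_mul, Nat.cast_sub hle]

theorem tendsto_pp : Tendsto (fun j : ℕ => 2 ^ 2 ^ (j + 1)) atTop atTop := by
  have h1 : Tendsto (fun j : ℕ => 2 ^ (j + 1)) atTop atTop :=
    (tendsto_pow_atTop_atTop_of_one_lt (by norm_num : 1 < 2)).comp (tendsto_add_atTop_nat 1)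
  exact (tendsto_pow_atTop_atTop_of_one_lt (by norm_num : 1 < 2)).comp h1

theorem TT_near {α β : ℝ} (h : α ≤ β) : Tendsto (fun j : ℕ => TT α β (2 ^ 2 ^ (j + 1)) /
    ((2 ^ 2 ^ (j + 1) : ℕ) : ℝ) - bv α β j) atTop (𝓝 0) := by
  have h1 : Tendsto (fun j : ℕ => (β - α) / ((2 ^ 2 ^ j : ℕ) : ℝ)) atTop (𝓝 0) := by
    apply tendsto_const_nhds.div_atTop
    apply tendsto_natCast_atTop_atTop.comp
    exact (tendsto_pow_atTop_atTop_of_one_lt (by norm_num : 1 < 2)).comp
      (tendsto_pow_atTop_atTop_of_one_lt (by norm_num : 1 < 2))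
  apply squeeze_zero_norm _ h1
  intro j
  obtain ⟨a, ha⟩ : ∃ a : ℝ, a = ((2 ^ 2 ^ j : ℕ) : ℝ) := ⟨_, rfl⟩
  have ha0 : 0 < a := by rw [ha]; positivity
  have hsq : ((2 ^ 2 ^ (j + 1) : ℕ) : ℝ) = a * a := by
    rw [ha]
    push_cast
    rw [← pow_add]
    congr 1
    rw [pow_succ]
    ring
  have hb := TT_block α β j
  rw [hsq, ← ha] at hb
  rw [hsq, ← ha, hb, Real.norm_eq_abs]
  obtain ⟨h2, h3⟩ := TT_mem h (2 ^ 2 ^ j)
  rw [← ha] at h2 h3
  obtain ⟨h4, h5⟩ := bv_mem h j
  have e : (TT α β (2 ^ 2 ^ j) + (a * a - a) * bv α β j) / (a * a) - bv α β j =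
      (TT α β (2 ^ 2 ^ j) - a * bv α β j) / (a * a) := by
    field_simp
    ring
  rw [e, abs_div, abs_of_pos (mul_pos ha0 ha0), div_le_div_iff₀ (mul_pos ha0 ha0) ha0]
  have h6 : |TT α β (2 ^ 2 ^ j) - a * bv α β j| ≤ (β - α) * a := by
    rw [abs_le]
    constructor <;> nlinarith
  nlinarith

/-- all pairs occur -/
theorem exists_pair {α β : ℝ} (h1 : 1 ≤ α) (h : α ≤ β) :
    ∃ (k : ℕ) (ξ : ℕ → Al k), HasDegrees (growth (S k) ξ) α β := by
  have hinc : ∀ n, 1 ≤ TT α β (n + 1) - TT α β n ∧ TT α β (n + 1) - TT α β n ≤ β := by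
    intro n
    have e : TT α β (n + 1) - TT α β n = bt' α β n := by
      unfold TT
      rw [Finset.sum_range_succ]
      ring
    rw [e]
    obtain ⟨h2, h3⟩ := bv_mem h (Nat.log 2 (Nat.log 2 n))
    exact ⟨h1.trans h2, h3⟩
  obtain ⟨k, ξ, C, hC⟩ := exists_growth (TT α β) β (h1.trans h) hinc
  refine ⟨k, ξ, ?_⟩
  have hnear := TT_near h
  have hodd : Tendsto (fun i : ℕ => 2 * i + 1) atTop atTop :=
    tendsto_atTop_mono (fun i => by simp only [id]; omega) tendsto_id
  have heven : Tendsto (fun i : ℕ => 2 * i) atTop atTop :=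
    tendsto_atTop_mono (fun i => by simp only [id]; omega) tendsto_id
  apply hasDegrees_of (growth (S k) ξ) (fun n => growth_pos S_finite ξ n)
    (fun m n hmn => growth_mono S_finite ξ hmn) (TT α β) C hC (by linarith) (by linarith)
    (TT_mem h) (φ := fun i => 2 ^ 2 ^ (2 * i + 1 + 1)) (ψ := fun i => 2 ^ 2 ^ (2 * i + 1))
    (tendsto_pp.comp hodd) _ (tendsto_pp.comp heven) _
  · have h2 := hnear.comp hodd
    have h3 : Tendsto (fun i : ℕ => TT α β (2 ^ 2 ^ (2 * i + 1 + 1)) /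
        ((2 ^ 2 ^ (2 * i + 1 + 1) : ℕ) : ℝ) - α) atTop (𝓝 0) := by
      refine h2.congr fun i => ?_
      simp only [Function.comp]
      have : bv α β (2 * i + 1) = α := by
        unfold bv
        rw [if_neg]
        intro hev
        rcases hev with ⟨r, hr⟩
        omega
      rw [this]
    have h4 := h3.add_const α
    rw [zero_add] at h4
    refine h4.congr fun i => ?_
    ring
  · have h2 := hnear.comp heven
    have h3 : Tendsto (fun i : ℕ => TT α β (2 ^ 2 ^ (2 * i + 1)) /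
        ((2 ^ 2 ^ (2 * i + 1) : ℕ) : ℝ) - β) atTop (𝓝 0) := by
      refine h2.congr fun i => ?_
      simp only [Function.comp]
      have : bv α β (2 * i) = β := by
        unfold bv
        rw [if_pos (even_two_mul i)]
      rw [this]
    have h4 := h3.add_const β
    rw [zero_add] at h4
    refine h4.congr fun i => ?_
    ring

end Pool.Agent.Y381.Deg
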